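import Pool.Agent.helper10.RG.SpecB

/-!
# Project rg (MP_2e0e07_nt), row KRE: eigenvalues of a Kronecker product with a `2 × 2` matrix
-/

set_option autoImplicit false

universe u v w

namespace Pool.Agent.RG

open Matrix Polynomial Pool.Agent.GO Pool.Agent.AR

private theorem KRE_smul {F : Type v} [Field F] [IsAlgClosed F] {b : ℕ} (M : Matrix (Fin b) (Fin b) F)
    {α : F} (hα : α ≠ 0) : (α • M).charpoly.roots = M.charpoly.roots.map (fun μ => α * μ) := by
  have h1 : (α • M).charpoly = M.charpoly.scaleRoots α := by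
    have : Infinite F := IsAlgClosed.instInfinite
    refine Polynomial.funext fun t => ?_
    obtain ⟨x, rfl⟩ : ∃ x, t = α * x := ⟨α⁻¹ * t, by field_simp⟩
    have h2 := Polynomial.scaleRoots_eval₂_mul (p := M.charpoly) (RingHom.id F) x α
    simp only [RingHom.id_apply, Polynomial.eval₂_id] at h2
    rw [h2, Matrix.eval_charpoly, Matrix.eval_charpoly, Matrix.charpoly_natDegree_eq_dim]
    have h3 : Matrix.scalar (Fin b) (α * x) - α • M = α • (Matrix.scalar (Fin b) x - M) := by
      rw [smul_sub]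
      congr 1
      ext i j
      simp [Matrix.scalar_apply, Matrix.diagonal_apply]
    rw [h3, Matrix.det_smul]
  rw [h1]
  exact Polynomial.roots_scaleRoots _ (isUnit_iff_ne_zero.mpr hα)

private theorem KRE_tri {F : Type v} [Field F] [IsAlgClosed F] {b : ℕ} (M : Matrix (Fin b) (Fin b) F)
    (T : Matrix (Fin 2) (Fin 2) F) (h10 : T 1 0 = 0) (h0 : T 0 0 ≠ 0) (h1 : T 1 1 ≠ 0) :
    (kroneckerMap (· * ·) T M).charpoly.roots =
      M.charpoly.roots.map (fun μ => T 0 0 * μ) + M.charpoly.roots.map (fun μ => T 1 1 * μ) := by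
  let e : Fin 2 × Fin b ≃ Fin b ⊕ Fin b :=
    (Equiv.prodCongr finTwoEquiv (Equiv.refl _)).trans (Equiv.boolProdEquivSum (Fin b))
  have he0 : ∀ i, e.symm (Sum.inl i) = (0, i) := by intro i; rfl
  have he1 : ∀ i, e.symm (Sum.inr i) = (1, i) := by intro i; rfl
  have hb : Matrix.reindex e e (kroneckerMap (· * ·) T M) =
      Matrix.fromBlocks (T 0 0 • M) (T 0 1 • M) 0 (T 1 1 • M) := by
    ext i j
    rcases i with i | i <;> rcases j with j | j <;>
      simp [Matrix.reindex_apply, Matrix.submatrix_apply, he0, he1, Matrix.kroneckerMap_apply, h10]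
  rw [← Matrix.charpoly_reindex e, hb, Matrix.charpoly_fromBlocks_zero₂₁,
    Polynomial.roots_mul, KRE_smul M h0, KRE_smul M h1]
  exact mul_ne_zero (Matrix.charpoly_monic _).ne_zero (Matrix.charpoly_monic _).ne_zero

theorem KRE : KRE_stmt.{v} := by
  intro F _ _ b R M α β hR hα hβ
  -- an eigenvector
  have hev : (Matrix.scalar (Fin 2) α - R).det = 0 := by
    rw [← Matrix.eval_charpoly, hR]
    simp
  obtain ⟨x, hx0, hx⟩ := Matrix.exists_mulVec_eq_zero_iff.mpr hev
  have hRx : R *ᵥ x = α • x := by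
    rw [Matrix.sub_mulVec, sub_eq_zero] at hx
    rw [← hx]
    ext i
    simp [Matrix.scalar_apply, Matrix.mulVec_diagonal]
  obtain ⟨y, hdet⟩ : ∃ y : Fin 2 → F, x 0 * y 1 - y 0 * x 1 ≠ 0 := by
    by_cases h : x 0 = 0
    · refine ⟨![1, 0], ?_⟩
      have : x 1 ≠ 0 := by
        intro h1
        apply hx0
        ext i
        fin_cases i
        · exact h
        · exact h1
      simpa using this
    · exact ⟨![0, 1], by simpa using h⟩
  let P : Matrix (Fin 2) (Fin 2) F := !![x 0, y 0; x 1, y 1]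
  have hP : P.det ≠ 0 := by
    simp only [P, Matrix.det_fin_two_of]
    exact hdet
  have hPu : IsUnit P.det := isUnit_iff_ne_zero.mpr hP
  have hPi : P * P⁻¹ = 1 := Matrix.mul_nonsing_inv P hPu
  have hPi' : P⁻¹ * P = 1 := Matrix.nonsing_inv_mul P hPu
  set T : Matrix (Fin 2) (Fin 2) F := P⁻¹ * R * P with hT
  have hRP0 : ∀ i, (R * P) i 0 = α * P i 0 := by
    intro i
    have h1 := congrFun hRx i
    simp only [Matrix.mulVec, dotProduct, Fin.sum_univ_two, Pi.smul_apply, smul_eq_mul] at h1
    rw [Matrix.mul_apply, Fin.sum_univ_two]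
    fin_cases i <;> simpa [P] using h1
  have hT0 : ∀ i, T i 0 = α * (1 : Matrix (Fin 2) (Fin 2) F) i 0 := by
    intro i
    rw [hT, Matrix.mul_assoc, Matrix.mul_apply, Fin.sum_univ_two, hRP0, hRP0, ← hPi', Matrix.mul_apply,
      Fin.sum_univ_two]
    ring
  have h00 : T 0 0 = α := by rw [hT0]; simp
  have h10 : T 1 0 = 0 := by rw [hT0]; simp
  have hTc : T.charpoly = R.charpoly := by
    rw [hT, Matrix.mul_assoc, Matrix.charpoly_mul_comm, Matrix.mul_assoc, hPi, Matrix.mul_one]
  have h11 : T 1 1 = β := by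
    have h2 : T.trace = R.trace := by
      rw [hT, Matrix.mul_assoc, Matrix.trace_mul_comm, Matrix.mul_assoc, hPi, Matrix.mul_one]
    have h3 : R.trace = α + β := by
      have h4 := Matrix.trace_eq_neg_charpoly_coeff R
      rw [hR] at h4
      rw [h4]
      simp only [Fintype.card_fin, Nat.reduceSub]
      have h5 : ((X - C α) * (X - C β) : F[X]) = X ^ 2 + C (-(α + β)) * X + C (α * β) := by
        simp only [C_neg, C_add, C_mul]
        ring
      rw [h5]
      simp [coeff_X_pow, coeff_C]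
    rw [h3, Matrix.trace_fin_two, h00] at h2
    exact add_left_cancel h2
  have hk : (kroneckerMap (· * ·) R M).charpoly = (kroneckerMap (· * ·) T M).charpoly := by
    have e1 : kroneckerMap (· * ·) T M =
        kroneckerMap (· * ·) P⁻¹ (1 : Matrix (Fin b) (Fin b) F) *
          (kroneckerMap (· * ·) R M * kroneckerMap (· * ·) P (1 : Matrix (Fin b) (Fin b) F)) := by
      rw [← Matrix.mul_kronecker_mul, ← Matrix.mul_kronecker_mul, Matrix.one_mul, Matrix.mul_one, hT,
        Matrix.mul_assoc]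
    rw [e1, Matrix.charpoly_mul_comm, Matrix.mul_assoc, ← Matrix.mul_kronecker_mul, hPi, Matrix.one_mul,
      Matrix.one_kronecker_one, Matrix.mul_one]
  rw [hk, KRE_tri M T h10 (by rw [h00]; exact hα) (by rw [h11]; exact hβ), h00, h11]

end Pool.Agent.RG
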